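import Pool.Agent.Work.MP_64ea0f_cs.InterfaceC

/-! Block C_CN2 (helper42): translation lengths of powers, and uniqueness. -/

set_option autoImplicit false

namespace Pool.CS

theorem c_cn2_thm (hTHR : Stmt_C_THR) (hSYM : Stmt_C_SYM) (hLCA : Stmt_C_LCA) : Stmt_C_CN2 := by
  intro Λ G H P hP
  obtain ⟨hsym, -⟩ := hSYM Λ G H
  obtain ⟨-, lc1, -, -, -, lcn, one1, sper, -⟩ := hLCA Λ G H
  have hk : (0 : ℤ) < H.k := by exact_mod_cast H.pos
  -- membership in the shifts along a class
  have hsh : ∀ (f : Λ → ℤ) (j n : ℤ),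
      j + H.k * n ∈ H.sh f P ↔ j + H.k * (n - f (H.s j)) ∈ P := by
    intro f j n
    have e : j + H.k * n - H.k * f (H.s (j + H.k * n)) = j + H.k * (n - f (H.s j)) := by
      rw [sper]; ring
    show (j + H.k * n) - H.k * f (H.s (j + H.k * n)) ∈ P ↔ _
    rw [e]
  constructor
  · intro hiso n
    have hQ : H.Cut (H.sh (n • H.one) P) := ((hsym _ (lcn n _ lc1)).1 P).1 hP
    have hfin : (symmDiff P (H.sh (n • H.one) P)).Finite := by
      refine (hP.2.2.union hQ.2.2).subset ?_
      intro i hi
      simp only [Set.mem_union, Set.mem_symmDiff] at hi ⊢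
      tauto
    choose a ha using fun j : Fin H.k => hTHR Λ G H P hP (j : ℤ) (hiso _)
    let φ : Fin H.k × Fin n → ℤ := fun p => (p.1 : ℤ) + H.k * (a p.1 + 1 + (p.2 : ℤ))
    have hφ : Function.Injective φ := by
      rintro ⟨j, r⟩ ⟨j', r'⟩ h
      simp only [φ] at h
      have h1 : ((j : ℕ) : ℤ) % H.k = ((j' : ℕ) : ℤ) % H.k := by
        have := congrArg (fun z : ℤ => z % H.k) h
        simpa [Int.add_mul_emod_self_left] using this
      have hj : ((j : ℕ) : ℤ) % H.k = j := Int.emod_eq_of_lt (by positivity) (by exact_mod_cast j.2)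
      have hj' : ((j' : ℕ) : ℤ) % H.k = j' :=
        Int.emod_eq_of_lt (by positivity) (by exact_mod_cast j'.2)
      have e1 : j = j' := by
        apply Fin.ext
        rw [hj, hj'] at h1
        exact_mod_cast h1
      subst e1
      have h2 : (H.k : ℤ) * (a j + 1 + ((r : ℕ) : ℤ)) = H.k * (a j + 1 + ((r' : ℕ) : ℤ)) := by
        linarith
      have h3 := mul_left_cancel₀ hk.ne' h2
      have e2 : r = r' := by
        apply Fin.ext
        have : ((r : ℕ) : ℤ) = ((r' : ℕ) : ℤ) := by linarith
        exact_mod_cast this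
      rw [e2]
    have hsub : Set.range φ ⊆ symmDiff P (H.sh (n • H.one) P) := by
      rintro _ ⟨⟨j, r⟩, rfl⟩
      rw [Set.mem_symmDiff]
      right
      simp only [φ]
      have hr : ((r : ℕ) : ℤ) < n := by exact_mod_cast r.2
      have hr0 : (0 : ℤ) ≤ ((r : ℕ) : ℤ) := by positivity
      constructor
      · rw [hsh]
        have e : (n • H.one) (H.s (j : ℤ)) = n := by
          rw [Pi.smul_apply, one1 _ (hiso _)]
          simp
        rw [e]
        exact (ha j _).2 (by linarith)
      · intro hmem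
        have := (ha j _).1 hmem
        linarith
    have h1 : (Set.range φ).ncard = H.k * n := by
      rw [← Set.image_univ, Set.ncard_image_of_injective _ hφ, Set.ncard_univ,
        Nat.card_eq_fintype_card, Fintype.card_prod, Fintype.card_fin, Fintype.card_fin]
    calc n * H.k = (Set.range φ).ncard := by rw [h1, mul_comm]
      _ ≤ _ := Set.ncard_le_ncard hsub hfin
  · intro f g hf hg hfg
    funext t
    by_cases ht : t ∈ Set.range H.s
    · by_cases hi : H.iso t
      · rw [hf.2.1 t hi, hg.2.1 t hi]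
      · obtain ⟨j, rfl⟩ := ht
        obtain ⟨a, ha⟩ := hTHR Λ G H P hP j hi
        have key : ∀ n : ℤ, n - f (H.s j) ≤ a ↔ n - g (H.s j) ≤ a := by
          intro n
          rw [← ha, ← ha, ← hsh, ← hsh, hfg]
        have k1 := (key (a + f (H.s j))).1 (by linarith)
        have k2 := (key (a + g (H.s j))).2 (by linarith)
        linarith
    · rw [hf.2.2 t ht, hg.2.2 t ht]

end Pool.CS
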