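import Pool.Agent.Work.MP_64ea0f_cs.InterfaceC

/-! Block C_FIN (helper42): a normal subgroup of finite index which only makes shifts. -/

set_option autoImplicit false

namespace Pool.CS

theorem c_fin_thm (_hACT : Stmt_C_ACT) (hSYM : Stmt_C_SYM) (hSYC : Stmt_C_SYC)
    (hLCA : Stmt_C_LCA) (hREC : Stmt_C_REC) : Stmt_C_FIN := by
  intro Λ G H M _ L hfi hL
  obtain ⟨hsym, -⟩ := hSYM Λ G H
  obtain ⟨lc0, -, lcadd, lcneg, sh0, -, -, -, -⟩ := hLCA Λ G H
  obtain ⟨F, hF, rec, hrec⟩ := hREC Λ G H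
  let st : Setoid (H.X M) :=
    { r := fun x y => ∃ f, H.LC f ∧ (∀ t, (3 : ℤ) ∣ f t) ∧ y.1.1 = H.sh f x.1.1 ∧ y.2 = x.2
      iseqv :=
        { refl := fun x => ⟨0, lc0, fun t => by simp, (sh0 _).symm, rfl⟩
          symm := by
            rintro x y ⟨f, hf, h3, h1, h2⟩
            refine ⟨-f, lcneg f hf, fun t => by simpa using h3 t, ?_, h2.symm⟩
            rw [h1, (lcadd (-f) f (lcneg f hf) hf).2, neg_add_cancel, sh0]
          trans := by
            rintro x y z ⟨f, hf, h3, h1, h2⟩ ⟨g, hg, k3, k1, k2⟩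
            refine ⟨g + f, (lcadd g f hg hf).1, fun t => dvd_add (k3 t) (h3 t), ?_, k2.trans h2⟩
            rw [k1, h1, (lcadd g f hg hf).2] } }
  have hst : ∀ x y : H.X M, x ≈ y ↔ ∃ f, H.LC f ∧ (∀ t, (3 : ℤ) ∣ f t) ∧
      y.1.1 = H.sh f x.1.1 ∧ y.2 = x.2 := fun x y => Iff.rfl
  have hfinQ : Finite (RC G ⧸ M) := by
    have := hfi
    infer_instance
  have hfinY : Finite (Quotient st) := by
    refine Finite.of_injective (β := F × (RC G ⧸ M))
      (fun y => (rec y.out.1.1, y.out.2)) (fun y y' hyy => ?_)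
    simp only [Prod.mk.injEq] at hyy
    obtain ⟨f, hf, h3, h1⟩ := hrec _ _ y.out.1.2 y'.out.1.2 hyy.1
    have : y.out ≈ y'.out := (hst _ _).2 ⟨f, hf, h3, h1, hyy.2.symm⟩
    rw [← Quotient.out_eq y, ← Quotient.out_eq y']
    exact Quotient.sound this
  have hdesc : ∀ (t : Λ) (x y : H.X M), x ≈ y → L.τ t x ≈ L.τ t y := by
    rintro t x y ⟨f, hf, h3, h1, h2⟩
    have := (hSYC Λ G H (H.sh f) (hsym f hf)).2 M t x y h1 h2
    rw [hL, hL]
    exact ⟨f, hf, h3, this.1, this.2⟩
  let LY : LS G (Quotient st) :=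
    { τ := fun t => Quotient.map (L.τ t) (fun x y h => hdesc t x y h)
      inv := by
        intro a v
        induction v using Quotient.inductionOn with
        | h x => simp only [Quotient.map_mk, L.inv]
      com := by
        intro a b hab v
        induction v using Quotient.inductionOn with
        | h x => simp only [Quotient.map_mk, L.com a b hab x] }
  refine ⟨LY.hom.ker, MonoidHom.normal_ker _, ?_, ?_⟩
  · exact Subgroup.finiteIndex_ker _
  · intro z hz x
    have h1 : LY.r (Quotient.mk st x) z = Quotient.mk st x := by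
      have : LY.hom z⁻¹ = 1 := by
        have hz' := LY.hom.ker.inv_mem hz
        exact (MonoidHom.mem_ker).1 hz'
      rw [LS.r, this]
      rfl
    have h2 : Quotient.mk st (L.r x z) = LY.r (Quotient.mk st x) z :=
      LS.r_map L LY (Quotient.mk st) (fun a v => rfl) x z
    have h3 : x ≈ L.r x z := Quotient.exact (h1.symm.trans h2.symm)
    obtain ⟨f, hf, k3, k1, k2⟩ := (hst _ _).1 h3
    exact ⟨f, hf, k3, k1, k2⟩

end Pool.CS
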