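import Pool.Agent.Work.MP_64ea0f_cs.InterfaceG3

set_option autoImplicit false

/-! Block EQV of stage G (MP_64ea0f): the folding relation is an equivalence relation. -/

namespace Pool.CS

theorem stmt_EQV (h1 : Stmt_RD1) (h2 : Stmt_RD2) (hA : Stmt_MSA) : Stmt_EQV := by
  intro D K hK C N hok
  obtain ⟨r1, r2, r3, r4⟩ := h2 D K hK C N hok
  obtain ⟨a1, a2, a3, a4, a5, a6, a7⟩ := hA D K hK N
  have refl : ∀ x, D.YJ K x → D.Eqv K C N x x := by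
    intro x hx
    obtain ⟨z, Δ, ν, hz, hm, -⟩ := h1 D K hK C N hok x hx
    have hzx : D.MR K N z x := ⟨Δ, _, a1 Δ ν x z hm⟩
    exact ⟨z, hz, hzx, hzx⟩
  have symm : ∀ x y, D.Eqv K C N x y → D.Eqv K C N y x := by
    rintro x y ⟨z, hz, hx, hy⟩
    exact ⟨z, hz, hy, hx⟩
  have trans : ∀ x y z, D.Eqv K C N x y → D.Eqv K C N y z → D.Eqv K C N x z := by
    rintro x y w ⟨z, hz, hzx, hzy⟩ ⟨z', hz', hzy', hzw⟩
    obtain ⟨Δ, ν, hm, -⟩ := r2 z z' hz hz' y hzy hzy'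
    exact ⟨z, hz, hzx, r3 z z' w hz hz' ⟨Δ, ν, hm⟩ hzw⟩
  have mr : ∀ x y, D.MR K N x y → D.Eqv K C N x y := by
    intro x y h
    obtain ⟨z, hz, hzx, hzy⟩ := r4 x y h
    exact ⟨z, hz, hzx, hzy⟩
  refine ⟨refl, symm, trans, mr, ?_, ?_⟩
  · rintro x y ⟨z, hz, hzx, hzy⟩ n hn
    exact trans _ _ _ (symm _ _ (mr _ _ (a4 z x hzx n hn))) (mr _ _ (a4 z y hzy n hn))
  · rintro N' x y hdvd - ⟨z, hz, hzx, hzy⟩
    exact trans _ _ _ (symm _ _ (mr _ _ (a5 N' z x hdvd hzx))) (mr _ _ (a5 N' z y hdvd hzy))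

end Pool.CS
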