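import Pool.Agent.Work.MP_64ea0f_cs.InterfaceD

/-! Block GSA (helper42). -/

set_option autoImplicit false

namespace Pool.CS

namespace GSA

open Classical in
/-- add a bit which is switched by the letter `s` -/
noncomputable def bit {Λ Q : Type} {G : SimpleGraph Λ} (K : LS G Q) (s : Λ) : LS G (Q × Bool) where
  τ a x := (K.τ a x.1, if a = s then !x.2 else x.2)
  inv a x := by
    by_cases h : a = s
    · simp [h, K.inv]
    · simp [h, K.inv]
  com a b h x := by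
    by_cases h1 : a = s <;> by_cases h2 : b = s
    · subst h1; subst h2; exact absurd rfl (G.ne_of_adj h)
    · simp [h1, h2, K.com s b (h1 ▸ h)]
    · simp [h1, h2, K.com a s (h2 ▸ h)]
    · simp [h1, h2, K.com a b h]

end GSA

theorem gsa_thm (hPROD : Stmt_PROD) : Stmt_GSA := by
  classical
  intro Λ G A s F _ n hs hgood V _ L htriv φ hφ hcoc
  have hsub : A \ {s} ⊆ A := Set.sdiff_subset
  have hφ1 : Coch (L.rest (A \ {s})) (A \ {s}) (n + 1) φ := by
    have h1 : Coch L (A \ {s}) (n + 1) φ := Coch.mono hsub hφ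
    exact Coch.pull (π := fun v : V => v) h1 (fun a ha v => by rw [LS.rest_mem L ha])
  have hcoc1 : Cocy G (A \ {s}) (n + 1) φ := fun v l hl hn => hcoc v l (hl.mono hsub) hn
  obtain ⟨V', hV', L', π, htriv', hsurj, hequiv, ψ', hψ', hcob⟩ :=
    hgood V (L.rest (A \ {s})) (fun a ha v => LS.rest_not L ha v) φ hφ1 hcoc1
  obtain ⟨Q₁, hQ₁, hN₁, K₁, ρ₁, hK₁, hπρ, hρ⟩ := hPROD Λ G (A \ {s}) V V' L L' π hsurj
    (fun a ha v => by rw [hequiv, LS.rest_mem L ha])
  refine ⟨Q₁ × Bool, inferInstance, inferInstance, GSA.bit K₁ s, fun x => x.2.2, ?_, ?_, ?_,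
    fun x l => hat G (A \ {s}) (ψ' (ρ₁ (x.1, x.2.1))) l, ?_, ?_⟩
  · intro a ha q
    have h1 : a ∉ A \ {s} := fun h => ha h.1
    have h2 : a ≠ s := fun h => ha (h ▸ hs)
    show (K₁.τ a q.1, if a = s then !q.2 else q.2) = q
    rw [hK₁ a h1, if_neg h2]
  · intro a ha x
    show (if a = s then !x.2.2 else x.2.2) = x.2.2
    rw [if_neg ha]
  · intro x
    show (if s = s then !x.2.2 else x.2.2) = !x.2.2
    rw [if_pos rfl]
  · intro y x l hl hn t ht
    by_cases hf : Fl G (A \ {s}) (x :: l)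
    · have htA : t ∈ A \ {s} := (hf.2 x List.mem_cons_self).2 ht
      have e1 : ρ₁ (((L.prod (GSA.bit K₁ s)).τ t y).1, ((L.prod (GSA.bit K₁ s)).τ t y).2.1)
          = L'.τ t (ρ₁ (y.1, y.2.1)) := hρ t htA (y.1, y.2.1)
      show hat G (A \ {s}) (ψ' (ρ₁ (((L.prod (GSA.bit K₁ s)).τ t y).1,
        ((L.prod (GSA.bit K₁ s)).τ t y).2.1))) (x :: l) = hat G (A \ {s}) (ψ' (ρ₁ (y.1, y.2.1))) (x :: l)
      rw [e1]
      exact Coch.hat hψ' _ x l hn t ht
    · show hat G (A \ {s}) _ (x :: l) = hat G (A \ {s}) _ (x :: l)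
      rw [hat_not _ hf, hat_not _ hf]
  · intro x l hl hn
    have h1 := hcob (ρ₁ (x.1, x.2.1)) l hl hn
    simp only [hπρ] at h1
    rw [h1]
    refine del_congr (fun l' h1 h2 => ?_)
    show _ = hat G (A \ {s}) (ψ' (ρ₁ (x.1, x.2.1))) l'
    rw [hat_fl _ (hl.sublist h1)]

end Pool.CS
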