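import Pool.Agent.Work.MP_64ea0f_cs.InterfaceD

/-! Block GSC (helper42). -/

set_option autoImplicit false

namespace Pool.CS

namespace GSC

variable {Λ : Type} {G : SimpleGraph Λ} {A : Set Λ} {s : Λ}

theorem not_mem {I : Set Λ} (h : I ⊆ {b ∈ A | G.Adj s b}) : s ∉ I :=
  fun hs => G.loopless.irrefl s (h hs).2

theorem rmv_insert {I : Set Λ} (h : I ⊆ {b ∈ A | G.Adj s b}) : rmv s (insert s I) = I := by
  have := not_mem h
  unfold rmv
  rw [Set.insert_sdiff_of_mem _ (Set.mem_singleton s)]
  exact Set.sdiff_singleton_eq_self this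

theorem fl_insert (hs : s ∈ A) {m : List (Set Λ)} (hm : Fl G {b ∈ A | G.Adj s b} m) :
    Fl G A (m.map (insert s)) := by
  constructor
  · rw [List.pairwise_map]
    refine hm.1.imp_of_mem ?_
    intro I J hI hJ hIJ
    have h1 := not_mem (hm.2 I hI).2
    have h2 := not_mem (hm.2 J hJ).2
    rw [Set.ssubset_iff_subset_ne] at hIJ ⊢
    refine ⟨Set.insert_subset_insert hIJ.1, fun h => hIJ.2 ?_⟩
    have := congrArg (rmv s) h
    rwa [rmv_insert (hm.2 I hI).2, rmv_insert (hm.2 J hJ).2] at this
  · intro I' hI'
    obtain ⟨I, hI, rfl⟩ := List.mem_map.1 hI'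
    refine ⟨?_, ?_⟩
    · intro a ha b hb hab
      rcases ha with rfl | ha <;> rcases hb with rfl | hb
      · exact absurd rfl hab
      · exact ((hm.2 I hI).2 hb).2
      · exact ((hm.2 I hI).2 ha).2.symm
      · exact (hm.2 I hI).1 ha hb hab
    · exact Set.insert_subset hs (fun b hb => ((hm.2 I hI).2 hb).1)

theorem map_rmv {m : List (Set Λ)} (hm : Fl G {b ∈ A | G.Adj s b} m) :
    (m.map (insert s)).map (rmv s) = m := by
  rw [List.map_map]
  conv_rhs => rw [← List.map_id m]
  refine List.map_congr_left (fun I hI => ?_)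
  exact rmv_insert (hm.2 I hI).2

theorem rmv_sub (I : Set Λ) : rmv s I ⊆ I := Set.sdiff_subset

theorem rmv_mono {I J : Set Λ} (h : I ⊆ J) : rmv s I ⊆ rmv s J := Set.sdiff_subset_sdiff_left h

/-- the lists in the prism of a flag are weak flags -/
theorem wk_prism {l l1 l2 : List (Set Λ)} {x : Set Λ} (hl : Fl G A l) (h : l = l1 ++ x :: l2) :
    Wk G A (l1.map (rmv s) ++ rmv s x :: x :: l2) := by
  subst h
  obtain ⟨hp, hm⟩ := hl
  have hp := hp.imp (fun {I J : Set Λ} (h : I ⊂ J) => h.subset)
  rw [List.pairwise_append, List.pairwise_cons] at hp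
  obtain ⟨p1, ⟨p2, p3⟩, p4⟩ := hp
  constructor
  · rw [List.pairwise_append, List.pairwise_cons, List.pairwise_cons, List.pairwise_map]
    refine ⟨p1.imp (fun h => rmv_mono h), ⟨?_, p2, p3⟩, ?_⟩
    · intro J hJ
      rcases List.mem_cons.1 hJ with rfl | hJ
      · exact rmv_sub _
      · exact (rmv_sub x).trans (p2 J hJ)
    · intro I' hI' J hJ
      obtain ⟨I, hI, rfl⟩ := List.mem_map.1 hI'
      rcases List.mem_cons.1 hJ with rfl | hJ
      · exact rmv_mono (p4 I hI x List.mem_cons_self)
      · exact (rmv_sub I).trans (p4 I hI J hJ)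
  · intro J hJ
    have key : ∀ I ∈ l1 ++ x :: l2, G.IsClique (rmv s I) ∧ rmv s I ⊆ A := fun I hI =>
      ⟨(hm I hI).1.subset (rmv_sub I), (rmv_sub I).trans (hm I hI).2⟩
    rcases List.mem_append.1 hJ with hJ | hJ
    · obtain ⟨I, hI, rfl⟩ := List.mem_map.1 hJ
      exact key I (List.mem_append_left _ hI)
    · rcases List.mem_cons.1 hJ with rfl | hJ
      · exact key x (List.mem_append_right _ List.mem_cons_self)
      · exact hm J (List.mem_append_right _ hJ)

end GSC

theorem gsc_thm (hHAT : Stmt_HAT) : Stmt_GSC := by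
  classical
  intro Λ G A s F _ n hs V L φ hφ hcoc hvan
  have hBA : {b ∈ A | G.Adj s b} ⊆ A := fun b hb => hb.1
  have hBAs : {b ∈ A | G.Adj s b} ⊆ A \ {s} := fun b hb =>
    ⟨hb.1, fun h => G.loopless.irrefl s (by have := hb.2; rwa [Set.mem_singleton_iff.1 h] at this)⟩
  constructor
  · intro w b m hbm hn t ht
    have hb := (hbm.2 b List.mem_cons_self).2
    have hst : G.Adj s t := (hb ht).2
    have e : ∀ w : V, Pr (rmv s) (hat G A (φ (L.τ t w))) ((b :: m).map (insert s)) =
        Pr (rmv s) (hat G A (φ w)) ((b :: m).map (insert s)) := by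
      intro w
      refine Pr_congr (rmv s) (fun l1 x l2 hl => ?_)
      have hlen : (l1.map (rmv s) ++ rmv s x :: x :: l2).length = n + 3 := by
        have := congrArg List.length hl
        simp only [List.length_map, List.length_cons, List.length_append] at this ⊢
        omega
      have hhd : ∃ r, l1.map (rmv s) ++ rmv s x :: x :: l2 = b :: r := by
        cases l1 with
        | nil =>
          simp only [List.map_cons, List.nil_append, List.cons.injEq] at hl
          refine ⟨x :: l2, ?_⟩
          rw [← hl.1, GSC.rmv_insert hb]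
          rfl
        | cons y l1 =>
          simp only [List.map_cons, List.cons_append, List.cons.injEq] at hl
          refine ⟨l1.map (rmv s) ++ rmv s x :: x :: l2, ?_⟩
          rw [List.map_cons, ← hl.1, GSC.rmv_insert hb]
          rfl
      obtain ⟨r, hr⟩ := hhd
      rw [hr] at hlen ⊢
      exact Coch.hat hφ w b r (by simpa using hlen) t ht
    show Pr (rmv s) (hat G A (φ (L.τ t w))) ((b :: m).map (insert s)) -
      Pr (rmv s) (hat G A (φ (L.τ s (L.τ t w)))) ((b :: m).map (insert s)) =
      Pr (rmv s) (hat G A (φ w)) ((b :: m).map (insert s)) -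
      Pr (rmv s) (hat G A (φ (L.τ s w))) ((b :: m).map (insert s))
    rw [L.com s t hst, e, e]
  · intro w m hm hn
    have hl := GSC.fl_insert hs hm
    have hlen : (m.map (insert s)).length = n + 3 := by simpa using hn
    have e : ∀ w : V, del (Pr (rmv s) (hat G A (φ w))) (m.map (insert s)) =
        φ w (m.map (insert s)) := by
      intro w
      have h1 := prism (rmv s) (hat G A (φ w)) (m.map (insert s))
      rw [GSC.map_rmv hm, hat_fl _ hl, hat_fl _ (hm.mono hBA),
        hvan w m (hm.mono hBAs) hn, sub_zero] at h1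
      have h2 : Pr (rmv s) (del (hat G A (φ w))) (m.map (insert s)) = 0 := by
        refine Pr_eq_zero _ (fun l1 x l2 h => ?_)
        refine hHAT Λ G A F (n + 4) (φ w) (fun l hl hn => hcoc w l hl hn) _
          (GSC.wk_prism hl h) ?_
        have := congrArg List.length h
        simp only [List.length_map, List.length_cons, List.length_append] at this ⊢
        omega
      rw [h2, add_zero] at h1
      exact h1
    show del (fun m => Pr (rmv s) (hat G A (φ w)) (m.map (insert s)) -
      Pr (rmv s) (hat G A (φ (L.τ s w))) (m.map (insert s))) m = 0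
    rw [del_sub, del_map (insert s) (Pr (rmv s) (hat G A (φ w))),
      del_map (insert s) (Pr (rmv s) (hat G A (φ (L.τ s w)))), e, e]
    cases m with
    | nil => simp at hn
    | cons b m =>
      rw [List.map_cons, hφ w (insert s b) (m.map (insert s)) (by simpa using hl)
        (by simpa using hn) s (Set.mem_insert s b), sub_self]

end Pool.CS
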