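import Pool.Agent.Work.MP_64ea0f_cs.InterfaceG3

set_option autoImplicit false

/-! Block OKC of stage G (MP_64ea0f): the constants of the folding exist. -/

namespace Pool.CS

theorem stmt_OKC (hF1 : Stmt_FAR1) (hF3 : Stmt_FAR3) (hU : Stmt_UNQ) (hN : Stmt_NRT) : Stmt_OKC := by
  intro D K hK
  obtain ⟨C1, hC1, h1⟩ := hF1 D K hK
  obtain ⟨C3, h3⟩ := hF3 D K hK
  have hC0 : 0 ≤ max C1 C3 := le_trans hC1 (le_max_left _ _)
  obtain ⟨N1, hN1, hu⟩ := hU D K (max C1 C3) hC0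
  refine ⟨max C1 C3, max N1 2, fun N hNN => ⟨hC0, le_trans (le_max_right _ _) hNN, ?_, ?_, ?_⟩⟩
  · intro x hx δ hfar
    refine h1 x hx δ ⟨hfar.1, fun hnear => hfar.2 ?_⟩
    exact (hN D K C1).2.1 (max C1 C3) x δ (le_max_left _ _) hnear
  · intro x hx
    exact h3 (max C1 C3) (le_max_right _ _) x hx
  · intro Δ ν x y hm δ hδ hne
    exact hu N (le_trans (le_max_left _ _) hNN) Δ ν x y hm δ hδ hne

end Pool.CS
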